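import Pool.Agent.Helper83.CK.St

/-! # Project CK (MP_f663dd_lc), module T: terms -/

set_option autoImplicit false

namespace Pool.Agent.Helper80.CK

open Pool.Agent.Helper83.CK Cardinal

universe u

/-- terms with operations of arity omega -/
inductive Tm : Type
  | v : ℕ → Tm
  | op : (ℕ → Bool) → (ℕ → Tm) → Tm

/-- arities -/
def be : ℕ ⊕ (ℕ → Bool) → Type
  | .inl _ => Empty
  | .inr _ => ℕ

/-- coding of the terms by a W-type -/
def toW : Tm → WType be
  | .v n => WType.mk (Sum.inl n) (fun e => Empty.elim e)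
  | .op i τ => WType.mk (Sum.inr i) (fun n => toW (τ n))

theorem toW_inj : Function.Injective toW := by
  intro s
  induction s with
  | v n =>
    intro t h
    cases t with
    | v m =>
      simp only [toW] at h
      have h2 : (Sum.inl n : ℕ ⊕ (ℕ → Bool)) = Sum.inl m := ((WType.mk.injEq _ _ _ _).mp h).1
      rw [Sum.inl.inj h2]
    | op i τ =>
      simp only [toW] at h
      have h1 : (Sum.inl n : ℕ ⊕ (ℕ → Bool)) = Sum.inr i := ((WType.mk.injEq _ _ _ _).mp h).1
      exact absurd h1 (by simp)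
  | op i τ ih =>
    intro t h
    cases t with
    | v m =>
      simp only [toW] at h
      have h1 : (Sum.inr i : ℕ ⊕ (ℕ → Bool)) = Sum.inl m := ((WType.mk.injEq _ _ _ _).mp h).1
      exact absurd h1 (by simp)
    | op j σ =>
      simp only [toW] at h
      have h1 : (Sum.inr i : ℕ ⊕ (ℕ → Bool)) = Sum.inr j := ((WType.mk.injEq _ _ _ _).mp h).1
      have h2 : i = j := Sum.inr.inj h1
      subst h2
      have h3 := (WType.mk.injEq _ _ _ _).mp h
      have h4 := eq_of_heq h3.2
      have h5 : τ = σ := by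
        funext n
        exact ih n (congrFun h4 n)
      rw [h5]

theorem card_Tm : #Tm ≤ 𝔠 := by
  have h1 : #(WType be) ≤ 𝔠 := by
    apply WType.cardinalMk_le_of_le'
    have h2 : ∀ a : ℕ ⊕ (ℕ → Bool), 𝔠 ^ lift.{0} #(be a) ≤ 𝔠 := by
      intro a
      cases a with
      | inl n =>
        have : #(be (Sum.inl n)) = 0 := Cardinal.mk_eq_zero Empty
        rw [this]
        simp only [lift_zero, power_zero]
        exact Cardinal.one_le_aleph0.trans Cardinal.aleph0_le_continuum
      | inr i =>
        have : #(be (Sum.inr i)) = ℵ₀ := Cardinal.mk_nat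
        rw [this]
        simp
    calc (Cardinal.sum fun a : ℕ ⊕ (ℕ → Bool) => 𝔠 ^ lift.{0} #(be a))
        ≤ Cardinal.sum fun _ : ℕ ⊕ (ℕ → Bool) => 𝔠 := Cardinal.sum_le_sum _ _ h2
      _ = #(ℕ ⊕ (ℕ → Bool)) * 𝔠 := by simp
      _ ≤ 𝔠 := by
        have : #(ℕ ⊕ (ℕ → Bool)) = 𝔠 := by simp
        rw [this]
        simp
  exact le_trans (Cardinal.mk_le_of_injective toW_inj) h1

theorem exists_surj : ∃ D : (ℕ → Bool) → Tm, Function.Surjective D := by
  have h : #Tm ≤ #(ℕ → Bool) := by
    have : #(ℕ → Bool) = 𝔠 := by simp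
    rw [this]
    exact card_Tm
  obtain ⟨e⟩ := (Cardinal.le_def _ _).1 h
  have : Nonempty Tm := ⟨Tm.v 0⟩
  exact ⟨Function.invFun e, Function.invFun_surjective e.injective⟩

/-- evaluation -/
def eval {α : Type u} (g : (ℕ → Bool) → (ℕ → α) → α) (x : ℕ → α) : Tm → α
  | .v n => x n
  | .op i τ => g i (fun n => eval g x (τ n))

/-- renaming of the variables -/
def ren (f : ℕ → ℕ) : Tm → Tm
  | .v n => .v (f n)
  | .op i τ => .op i (fun n => ren f (τ n))

theorem eval_ren {α : Type u} (g : (ℕ → Bool) → (ℕ → α) → α) (x : ℕ → α) (f : ℕ → ℕ) (t : Tm) :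
    eval g x (ren f t) = eval g (fun n => x (f n)) t := by
  induction t with
  | v n => rfl
  | op i τ ih =>
    simp only [ren, eval]
    congr 1
    funext n
    exact ih n

theorem mT : StT.{u} := by
  intro α g
  obtain ⟨D, hD⟩ := exists_surj
  refine ⟨fun x y => eval g x (D y), ?_, ?_, ?_, ?_⟩
  · intro x n
    obtain ⟨y, hy⟩ := hD (Tm.v n)
    exact ⟨y, by simp only [hy, eval]⟩
  · intro x x' h y
    choose f hf using h
    obtain ⟨y', hy'⟩ := hD (ren f (D y))
    refine ⟨y', ?_⟩
    simp only [hy', eval_ren]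
    have : x = fun n => x' (f n) := funext hf
    rw [this]
  · intro X i z hz
    choose xs hxs ys hys using hz
    obtain ⟨y, hy⟩ := hD (Tm.op i (fun n => ren (fun m => Nat.pair n m) (D (ys n))))
    refine ⟨fun k => xs k.unpair.1 k.unpair.2, fun k => hxs _ _, y, ?_⟩
    simp only [hy, eval, eval_ren, Nat.unpair_pair]
    congr 1
    funext n
    exact hys n
  · intro A hA x hx y
    change eval g x (D y) ∈ A
    generalize D y = t
    induction t with
    | v n => exact hx n
    | op i τ ih => exact hA i _ ih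

end Pool.Agent.Helper80.CK
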